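import Pool.Graph.R_pool_sql_team_seeded_2aa45f1a.Results.MP_48b749_nt.TwoDivisionBound
import Pool.Agent.Helper85.BS.Tw
import Pool.Agent.Helper85.BS.Bd

/-!
# An elliptic curve over a function field and its quadratic twist by a constant

Let `K` be the function field of a curve over the field `k` with `q` elements, of characteristic at least `5`,
`E : y ^ 2 = x ^ 3 + a x + b` an elliptic curve over `K`, `u` a nonsquare of `k`, and `E'` the twist
`y ^ 2 = x ^ 3 + u ^ 2 a x + u ^ 3 b`; so `E` and `E'` are the two parts of `E` over the quadratic extension of the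
field of constants. Let `twoOrder` be the number of the library, computed from the algebra of the points of order two: the
order of the zero `1` of `L(T, E)` modulo two. We show that the *sum* of the orders of vanishing of `L(T, E)` and of
`L(T, E')` at `1 / q` is at most `twoOrder`, and that it has the same parity, if the functional equation holds.
-/

set_option autoImplicit false
set_option linter.all false
set_option maxHeartbeats 4000000

open Polynomial Pool.Agent.H123R3.ZT Pool.Agent.W343.BSD Pool.Agent.W313.Gr Pool.Agent.W313.Hyp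

namespace Pool.Agent.Results.MP_48b749_nt.ConstantTwistPairs

/-- `L(T) = L(T, E)` is an integral polynomial `P(T)`, of degree `N` say, and satisfies the functional
equation `T ^ N L(T ^ (-1) / q) = ε L(T / q)` with a sign `ε`. -/
def FunctionalEquation (k : Type) {K : Type} [Field k] [Field K] [Algebra k K] (a b : K) : Prop :=
  ∃ (P : ℤ[X]) (ε : ℤ), S.Lfun k a b = (P : PowerSeries ℤ) ∧ (ε = 1 ∨ ε = -1) ∧ ∀ x : ℚ, x ≠ 0 →
    x ^ P.natDegree * (P.map (Int.castRingHom ℚ)).eval (x * (Nat.card k : ℚ))⁻¹ =
      ε * (P.map (Int.castRingHom ℚ)).eval (x / (Nat.card k : ℚ))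

/-- The statement for two curves `E : y ^ 2 = x ^ 3 + a x + b`, `E' : y ^ 2 = x ^ 3 + a' x + b'` and a number `t`; let `r`
and `s` be the orders of vanishing of `L(T, E)` and `L(T, E')` at `T = 1 / q`. First, `r + s ≤ t`. Second, if `E` and `E'`
have `ρ` and `ρ'` independent points with `t ≤ ρ + ρ'`, the ranks are equal to the orders (if they are at most the
orders, which is known). Third, if the functional equation holds, `t - (r + s)` is even; if `t = 1`, one of `r`, `s` is
`0` and the other is `1`, and the rank is equal to the order for `E` or for `E'`; if `t ≤ ρ + ρ' + 1`, then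
`r + s = t`, and the rank is equal to the order for `E` or for `E'`. -/
def PairStatement (k : Type) {K : Type} [Field k] [Field K] [Algebra k K] (a b a' b' : K) (t : ℤ) :
    Prop :=
  ∀ r s : ℕ, HasOrder k a b r → HasOrder k a' b' s →
    (r + s : ℤ) ≤ t ∧
    (∀ ρ ρ' : ℕ, (ρ : Cardinal) ≤ rank a b → (ρ' : Cardinal) ≤ rank a' b' → rank a b ≤ r →
      rank a' b' ≤ s → t ≤ ρ + ρ' → rank a b = r ∧ rank a' b' = s) ∧
    (FunctionalEquation k a b →
      Even (t - (r + s)) ∧
      (t = 1 → (r = 0 ∧ s = 1) ∨ (r = 1 ∧ s = 0)) ∧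
      (t = 1 → rank a b ≤ r → rank a' b' ≤ s → rank a b = r ∨ rank a' b' = s) ∧
      (∀ ρ ρ' : ℕ, (ρ : Cardinal) ≤ rank a b → (ρ' : Cardinal) ≤ rank a' b' → rank a b ≤ r →
        rank a' b' ≤ s → t ≤ ρ + ρ' + 1 →
          ((r + s : ℤ) = t) ∧ (rank a b = r ∨ rank a' b' = s)))

/-- Let `E : y ^ 2 = x ^ 3 + a x + b` be an elliptic curve over the function field `K` of a curve over the finite field `k`
of characteristic at least `5`, let `u` be a nonsquare of `k` and `E'` the twist of `E` by `u`.

1. If `K[x] / (x ^ 3 + a x + b)` is the product of the fields `L i`, `PairStatement` holds with `t = twoOrder`.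
2. In particular, if the points of order two are rational, it holds with `t = 2 μ - 4 + condSum`, `μ` the multiplicity
of the zero `1` of the numerator of the zeta function of `K` modulo two. -/
theorem result (k K : Type) [Field k] [Finite k] [Field K] [Algebra k K] (h6 : (6 : k) ≠ 0)
    (hK : IsCurveField k K) (a b : K) (hE : 4 * a ^ 3 + 27 * b ^ 2 ≠ 0) (u : k)
    (hu : ¬ IsSquare u) :
    (∀ (ι : Type) [Fintype ι] (L : ι → Type) [∀ i, Field (L i)] [∀ i, Algebra k (L i)]
      [∀ i, Algebra K (L i)] [∀ i, IsScalarTower k K (L i)] (θ : ∀ i, L i), IsTwoDivision a b θ →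
      ∃ (P : ℤ[X]) (PL : ι → ℤ[X]), IsNumerator k K P ∧ (∀ i, IsNumerator k (L i) (PL i)) ∧
        PairStatement k a b (algebraMap k K u ^ 2 * a) (algebraMap k K u ^ 3 * b)
          (twoOrder k a b L P PL)) ∧
    ∀ e : Fin 3 → K, ∏ i, (X - C (e i)) = X ^ 3 + C a * X + C b →
      ∃ P : ℤ[X], IsNumerator k K P ∧
        PairStatement k a b (algebraMap k K u ^ 2 * a) (algebraMap k K u ^ 3 * b)
          (2 * muTwo P - 4 + condSum k a b) := by
  have hFF : FF.IsFF k K := ⟨hK.essFiniteType, hK.trdeg_eq_one⟩
  have hc := constDeg_eq_one hK.algClosed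
  have h2 : (2 : k) ≠ 0 := by
    intro h
    apply h6
    have : (6 : k) = 2 * 3 := by norm_num
    rw [this, h, zero_mul]
  have hq : Odd (Nat.card k) := Pool.Agent.R427.CC.odd_card h2
  have main : ∀ t : ℤ, (∀ G : ℤ[X], S.Lfun k a b = (G : PowerSeries ℤ) → (muTwo G : ℤ) = t) →
      PairStatement k a b (algebraMap k K u ^ 2 * a) (algebraMap k K u ^ 3 * b) t := by
    intro t ht r s hr hs
    obtain ⟨G, hG, hGr⟩ := hr
    have hGs := (Pool.Agent.Helper85.BS.order_twist h6 hE hu hG s).1 hs
    have hG0 : G.coeff 0 = 1 := by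
      have h1 : PowerSeries.constantCoeff (S.Lfun k a b) = 1 :=
        Pool.Agent.Helper85.BS.const_lfun a b
      rw [hG] at h1
      simpa using h1
    have hmu := ht G hG
    have hb := Pool.Agent.Helper85.BS.bound hq hG0
    rw [hGr, hGs] at hb
    have hle : (r + s : ℤ) ≤ t := by
      rw [← hmu]
      unfold muTwo
      exact_mod_cast hb
    have cast_le : ∀ {x : Cardinal} {m n : ℕ}, (m : Cardinal) ≤ x → x ≤ n → n ≤ m → x = n := by
      intro x m n h1 h2 h3
      refine le_antisymm h2 (le_trans ?_ h1)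
      exact_mod_cast h3
    have cast_le' : ∀ {x : Cardinal} {m n : ℕ}, (m : Cardinal) ≤ x → x ≤ n → m ≤ n := by
      intro x m n h1 h2
      exact_mod_cast h1.trans h2
    refine ⟨hle, ?_, ?_⟩
    · intro ρ ρ' h1 h2 h3 h4 h5
      have l1 := cast_le' h1 h3
      have l2 := cast_le' h2 h4
      exact ⟨cast_le h1 h3 (by omega), cast_le h2 h4 (by omega)⟩
    · rintro ⟨P, ε, hP, hε, hfe⟩
      have hPG : P = G := Polynomial.coe_injective _ (hP.symm.trans hG)
      subst hPG
      obtain ⟨j, hj⟩ := Pool.Agent.Helper85.BS.parity hq hG0 hε hfe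
      rw [hGr, hGs] at hj
      have hj' : t = r + s + 2 * j := by
        rw [← hmu]
        unfold muTwo
        exact_mod_cast hj
      have key : ∀ ρ ρ' : ℕ, (ρ : Cardinal) ≤ rank a b →
          (ρ' : Cardinal) ≤ rank (algebraMap k K u ^ 2 * a) (algebraMap k K u ^ 3 * b) →
          rank a b ≤ r → rank (algebraMap k K u ^ 2 * a) (algebraMap k K u ^ 3 * b) ≤ s →
          t ≤ ρ + ρ' + 1 → ((r + s : ℤ) = t) ∧ (rank a b = r ∨
            rank (algebraMap k K u ^ 2 * a) (algebraMap k K u ^ 3 * b) = s) := by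
        intro ρ ρ' h1 h2 h3 h4 h5
        have l1 := cast_le' h1 h3
        have l2 := cast_le' h2 h4
        refine ⟨by omega, ?_⟩
        by_cases h : r ≤ ρ
        · exact Or.inl (cast_le h1 h3 h)
        · exact Or.inr (cast_le h2 h4 (by omega))
      refine ⟨⟨j, by omega⟩, fun h => by omega, fun h h3 h4 => ?_, key⟩
      exact (key 0 0 (by simp) (by simp) h3 h4 (by omega)).2
  refine ⟨?_, ?_⟩
  · intro ι _ L _ _ _ _ θ hθ
    obtain ⟨P, PL, hP, hPL, hmu, -⟩ :=
      (TwoDivisionBound.result k K h6 hK a b hE).1 ι L θ hθ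
    exact ⟨P, PL, hP, hPL, main _ hmu⟩
  · intro e he
    obtain ⟨P, hP, hP1⟩ := exists_num_rel k K
    have hF := full_family hE he
    refine ⟨P, ⟨(S.isZetaNum_iff P).2 hP, hP1.trans (by rw [S.classNumber_eq])⟩, main _ ?_⟩
    intro G hG
    have h := (Pool.Agent.Q59.TD.poly_order (L := fun _ : Fin 3 => K) (PL := fun _ => P) h6 hE hF hP hc
      (fun _ => hP) hG).2
    rw [full_order hE hc] at h
    exact h

end Pool.Agent.Results.MP_48b749_nt.ConstantTwistPairs
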