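import Pool.Agent.Helper18.BC.Jne
import Pool.Agent.Helper85.BC.Rat
import Pool.Graph.R_seed8.TH958.T5.Fin

/-!
# Rank equals order of vanishing for elliptic curves with a constant, cubic 2-division field

The elliptic curves over function fields `K` of curves of every genus over finite fields `k`, the
2-torsion of which is defined over the constant cubic extension of `K`, and not over `K`. The
coefficients of the `L`-function modulo two are known for these curves. They have no rational
2-torsion and, in general, no rational isogeny.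
-/

set_option autoImplicit false
set_option linter.all false
set_option maxHeartbeats 4000000

open Polynomial Pool.Agent.W343.BSD Pool.Agent.W309.RK

namespace Pool.Agent.Results.MP_48b749_nt.ConstantTwoDivision

/-- The first coefficient. -/
def coeffA {K : Type} [Field K] (p r F G : K) : K :=
  p * F ^ 2 + 3 * r * F * G - p ^ 2 / 3 * G ^ 2

/-- The second coefficient. -/
def coeffB {K : Type} [Field K] (p r F G : K) : K :=
  -r * F ^ 3 + 2 / 3 * p ^ 2 * F ^ 2 * G + p * r * F * G ^ 2 + (2 / 27 * p ^ 3 + r ^ 2) * G ^ 3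

/-- The norm form `F ^ 3 + p F G ^ 2 + r G ^ 3`. -/
def form {K : Type} [Field K] (p r F G : K) : K := F ^ 3 + p * F * G ^ 2 + r * G ^ 3

/-- The curve `y ^ 2 = x ^ 3 + a x + b` with the coefficients `a = coeffA` and `b = coeffB`. The roots
of `x ^ 3 + a x + b` are the `-(F α + G (α ^ 2 + 2 p / 3))` with `α ^ 3 + p α + r = 0`. -/
def curve {K : Type} [Field K] (p r F G : K) : WeierstrassCurve K :=
  ⟨0, 0, 0, coeffA p r F G, coeffB p r F G⟩

/-- The constant `c` as a function. -/
abbrev const (k K : Type) [Field k] [Field K] [Algebra k K] (c : k) : K := algebraMap k K c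

/-- Over a field `L` in which `6` is not zero, a root `α` of `X ^ 3 + p X + r` gives the root
`-(F α + G (α ^ 2 + 2 p / 3))` of `x ^ 3 + a x + b`, and `4 a ^ 3 + 27 b ^ 2` is
`4 p ^ 3 + 27 r ^ 2` times the square of `form p r F G`. (Apply this to the extensions `L` of `K`, for
`p`, `r` in `k` and `F`, `G` in `K`: the 2-division field is given by a polynomial over `k`.) -/
def TwoDivision (L : Type) [Field L] : Prop :=
  ∀ p r F G : L,
    (∀ α x : L, α ^ 3 + p * α + r = 0 → x = -(F * α + G * (α ^ 2 + 2 * p / 3)) →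
      x ^ 3 + coeffA p r F G * x + coeffB p r F G = 0) ∧
    4 * coeffA p r F G ^ 3 + 27 * coeffB p r F G ^ 2 =
      (4 * p ^ 3 + 27 * r ^ 2) * form p r F G ^ 2

/-- The order of vanishing of the `L`-function of the curve at `T = 1 / |k|` is at most `n`: if the
`L`-function is `(1 - |k| T) ^ M G(T)` with `G` in `ℤ[T]`, then `M ≤ n`. -/
def OrderAtMost (k : Type) {K : Type} [Field k] [Field K] [Algebra k K] (p r F G : K) (n : ℕ) :
    Prop :=
  ∀ M : ℕ, S.VanishesTo k (coeffA p r F G) (coeffB p r F G) M → M ≤ n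

open Classical in
/-- The curve is an elliptic curve whose `j`-invariant `6912 a ^ 3 / (4 a ^ 3 + 27 b ^ 2)` is not in
`k`, with `ρ` linearly independent points over `K`, and the order of vanishing of its `L`-function is
at most `ρ`. If the `L`-function is a polynomial with order of vanishing `s` and the rank is at most
`s`, then the rank and `s` are equal to `ρ`. -/
def RankAndOrder (k : Type) {K : Type} [Field k] [Finite k] [Field K] [Algebra k K] (ρ : ℕ)
    (p r F G : K) : Prop :=
  4 * coeffA p r F G ^ 3 + 27 * coeffB p r F G ^ 2 ≠ 0 ∧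
  (∀ c : k, 6912 * coeffA p r F G ^ 3 / (4 * coeffA p r F G ^ 3 + 27 * coeffB p r F G ^ 2) ≠
    algebraMap k K c) ∧
  (∃ P : Fin ρ → (curve p r F G).toAffine.Point, LinearIndependent ℤ P) ∧
  OrderAtMost k p r F G ρ ∧
  ∀ s : ℕ, Pool.Agent.W313.Gr.HasOrder k (coeffA p r F G) (coeffB p r F G) s →
    Module.rank ℤ (curve p r F G).toAffine.Point ≤ s →
      s = ρ ∧ Module.rank ℤ (curve p r F G).toAffine.Point = ρ

/-- The numerator of the zeta function of `K` modulo two is not divisible by `X ^ 2 + X + 1`. -/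
def ZetaCondition (k K : Type) [Field k] [Field K] [Algebra k K] : Prop :=
  ∀ P : ℤ[X], S.IsZetaNum k K P →
    ¬ (X ^ 2 + X + 1 : (ZMod 2)[X]) ∣ P.map (Int.castRingHom (ZMod 2))

/-- The polynomial `X ^ 3 + p X + r` is irreducible over `k`, that is, has no root in `k`. -/
def NoRoot {k : Type} [Field k] (p r : k) : Prop := ∀ x : k, x ^ 3 + p * x + r ≠ 0

/-- The bound for all curves: the order of vanishing is at most the number of the places of bad
reduction with degree divisible by three, if the reduction at these is multiplicative and their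
degrees are odd. -/
def Bound (k K : Type) [Field k] [Finite k] [Field K] [Algebra k K] : Prop :=
  ∀ (p r : k), NoRoot p r → ∀ F G a b : K, a = coeffA (const k K p) (const k K r) F G →
    b = coeffB (const k K p) (const k K r) F G → 4 * a ^ 3 + 27 * b ^ 2 ≠ 0 →
    ∀ Z : Finset (FF.Place k K),
      (∀ v : FF.Place k K, 3 ∣ S.deg v → v.ord (minDisc v a b) ≠ 0 →
        v ∈ Z ∧ Odd (S.deg v) ∧ minA v a b ≠ 0 ∧ v.ord (minA v a b) = 0) →
      OrderAtMost k (const k K p) (const k K r) F G Z.card

/-- The family of rank one: `F = f`, `G = 1`. The function `f` is transcendental over `k`, the degrees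
of its poles are prime to three and `f ^ 3 + p f + r` has at most one zero, of odd degree. -/
def FamilyOne (k K : Type) [Field k] [Finite k] [Field K] [Algebra k K] : Prop :=
  ∀ (p r : k), NoRoot p r → ∀ f : K, Transcendental k f →
    (∀ v : FF.Place k K, v.ord f < 0 → ¬ 3 ∣ S.deg v) →
    ∀ v₀ : FF.Place k K, Odd (S.deg v₀) →
    (∀ v : FF.Place k K, 0 < v.ord (f ^ 3 + const k K p * f + const k K r) → v = v₀) →
    RankAndOrder k 1 (const k K p) (const k K r) f 1

/-- The family of rank two: `F = -f ^ 2 / r`, `G = 1 + p f ^ 2 / r ^ 2`. The function `f` is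
transcendental over `k` and the functions `f ^ 3 + p f ^ 2 + r ^ 2` and `f ^ 3 - p f ^ 2 - r ^ 2` have
at most one zero each, of odd degree. -/
def FamilyTwo (k K : Type) [Field k] [Finite k] [Field K] [Algebra k K] : Prop :=
  ∀ (p r : k), NoRoot p r → ∀ f : K, Transcendental k f →
    ∀ v₁ v₂ : FF.Place k K, Odd (S.deg v₁) → Odd (S.deg v₂) →
    (∀ v : FF.Place k K, 0 < v.ord (f ^ 3 + const k K p * f ^ 2 + const k K r ^ 2) → v = v₁) →
    (∀ v : FF.Place k K, 0 < v.ord (f ^ 3 - const k K p * f ^ 2 - const k K r ^ 2) → v = v₂) →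
    RankAndOrder k 2 (const k K p) (const k K r) (-f ^ 2 / const k K r)
      (1 + const k K p * f ^ 2 / const k K r ^ 2)

/-- The polynomial `P` as an element of `k(t)`. -/
noncomputable abbrev asFun {k : Type} [Field k] (P : k[X]) : RatFunc k := algebraMap k[X] (RatFunc k) P

/-- The towers over `k(t)`: there are `p` and `r` in `k` such that for `f = c t ^ (l ^ n)` with all
`c ≠ 0` and all `n` the curve of the first family has rank and order one and the curve of the second
family has rank and order two. -/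
def Towers (k : Type) [Field k] [Finite k] (l : ℕ) : Prop :=
  ∃ p r : k, NoRoot p r ∧ ∀ c : k, c ≠ 0 → ∀ n : ℕ,
    RankAndOrder k 1 (const k (RatFunc k) p) (const k (RatFunc k) r) (asFun (C c * X ^ l ^ n)) 1 ∧
    RankAndOrder k 2 (const k (RatFunc k) p) (const k (RatFunc k) r)
      (-asFun (C c * X ^ l ^ n) ^ 2 / const k (RatFunc k) r)
      (1 + const k (RatFunc k) p * asFun (C c * X ^ l ^ n) ^ 2 / const k (RatFunc k) r ^ 2)

theorem two_three {k : Type} [Field k] (h6 : (6 : k) ≠ 0) : (2 : k) ≠ 0 ∧ (3 : k) ≠ 0 := by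
  constructor
  · intro h; apply h6; linear_combination 3 * h
  · intro h; apply h6; linear_combination 2 * h

theorem half {k K : Type} [Field k] [Field K] [Algebra k K] (h2 : (2 : k) ≠ 0) (f : K) :
    2 * (f / 2) = f := by
  have h2K : (2 : K) ≠ 0 := by
    have := (_root_.map_ne_zero (algebraMap k K)).2 h2
    rwa [map_ofNat] at this
  field_simp

theorem trans_half {k K : Type} [Field k] [Field K] [Algebra k K] (h2 : (2 : k) ≠ 0) {f : K}
    (hf : Transcendental k f) : Transcendental k (f / 2) := by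
  intro h
  apply hf
  rw [← half (k := k) h2 f]
  have : (2 : K) = algebraMap k K 2 := by rw [map_ofNat]
  rw [this]
  exact (isAlgebraic_algebraMap _).mul (by rw [← this]; exact h)

theorem familyOne {k K : Type} [Field k] [Finite k] [Field K] [Algebra k K] (h6 : (6 : k) ≠ 0)
    (hK : IsCurveField k K) (hz : ZetaCondition k K) : FamilyOne k K := by
  classical
  intro p r hirr f hf hpole v₀ hodd hzero
  obtain ⟨h2, h3⟩ := two_three h6
  have hr := Pool.Agent.Helper18.BC.r_ne hirr
  have hff := half (k := k) h2 f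
  have hf2 := trans_half h2 hf
  have hd : 4 * p ^ 3 + 27 * r ^ 2 ≠ 0 := Pool.Agent.Helper85.BC.disc_ne h2 h3 hirr
  have hN0 : f ^ 3 + const k K p * f + const k K r ≠ 0 := by
    intro h0
    refine hf ⟨X ^ 3 + C p * X + C r, ?_, ?_⟩
    · intro h
      have h1 := congrArg (fun P => coeff P 3) h
      simp [coeff_X, coeff_C] at h1
    · simpa using h0
  have eN : Pool.Agent.Helper18.BC.kN p r (2 * (f / 2)) 1 =
      f ^ 3 + const k K p * f + const k K r := by
    rw [hff]
    unfold Pool.Agent.Helper18.BC.kN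
    ring
  have hΔ : 4 * Pool.Agent.Helper18.BC.kA p r f 1 ^ 3 +
      27 * Pool.Agent.Helper18.BC.kB p r f 1 ^ 2 ≠ 0 := by
    rw [Pool.Agent.Helper18.BC.kdisc h3]
    refine mul_ne_zero ((_root_.map_ne_zero _).2 hd) (pow_ne_zero 2 ?_)
    rw [← hff, eN]
    exact hN0
  have hpts := Pool.Agent.Helper85.BC.R1 h6 hirr hf2
  rw [hff] at hpts
  have hord : ∀ M : ℕ, S.VanishesTo k (coeffA (const k K p) (const k K r) f 1)
      (coeffB (const k K p) (const k K r) f 1) M → M ≤ 1 := by
    intro M hM
    refine Pool.Agent.Helper18.BC.bound1 hK hz h6 hirr (f := f / 2) (by rw [eN]; exact hN0) v₀ hodd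
      (fun v hv => hzero v (by rw [← eN]; exact hv)) (fun v hv => hpole v ?_) (m := M)
      (by rw [hff]; exact hM)
    have h2k : (2 : K) = algebraMap k K 2 := by rw [map_ofNat]
    have hf0 : f ≠ 0 := by
      rintro rfl
      exact hf isAlgebraic_zero
    rw [div_eq_mul_inv, h2k, ← map_inv₀, v.ord_mul hf0
      ((_root_.map_ne_zero _).2 (inv_ne_zero h2)), v.ord_const (inv_ne_zero h2), add_zero] at hv
    exact hv
  refine ⟨hΔ, fun c => Pool.Agent.Helper18.BC.j_ne h6 hr one_ne_zero (by rw [div_one]; exact hf)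
    hΔ c, hpts, hord, fun s hs hle => ?_⟩
  exact Pool.Agent.TH958.T5.equalities hpts hord s hs hle

theorem familyTwo {k K : Type} [Field k] [Finite k] [Field K] [Algebra k K] (h6 : (6 : k) ≠ 0)
    (hK : IsCurveField k K) (hz : ZetaCondition k K) : FamilyTwo k K := by
  classical
  intro p r hirr f hf v₁ v₂ hodd1 hodd2 hz1 hz2
  obtain ⟨h2, h3⟩ := two_three h6
  have hr := Pool.Agent.Helper18.BC.r_ne hirr
  have hd : 4 * p ^ 3 + 27 * r ^ 2 ≠ 0 := Pool.Agent.Helper85.BC.disc_ne h2 h3 hirr
  have hN1 : f ^ 3 + const k K p * f ^ 2 + const k K r ^ 2 ≠ 0 := by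
    intro h0
    refine hf ⟨X ^ 3 + C p * X ^ 2 + C (r ^ 2), ?_, ?_⟩
    · intro h
      have h1 := congrArg (fun P => eval 0 P) h
      simp only [eval_add, eval_mul, eval_C, eval_pow, eval_X, eval_zero] at h1
      exact hr (pow_eq_zero_iff (n := 2) (by norm_num) |>.1 (by linear_combination h1))
    · simpa using h0
  have hN2 : f ^ 3 - const k K p * f ^ 2 - const k K r ^ 2 ≠ 0 := by
    intro h0
    refine hf ⟨X ^ 3 - C p * X ^ 2 - C (r ^ 2), ?_, ?_⟩
    · intro h
      have h1 := congrArg (fun P => eval 0 P) h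
      simp only [eval_sub, eval_mul, eval_C, eval_pow, eval_X, eval_zero] at h1
      exact hr (pow_eq_zero_iff (n := 2) (by norm_num) |>.1 (by linear_combination -h1))
    · simpa using h0
  have hG := Pool.Agent.Helper18.BC.G_ne (p := p) hr hf
  have ht := Pool.Agent.Helper18.BC.trans_two (p := p) hr hf
  have hc3 : (-(1 / r ^ 3) : k) ≠ 0 := neg_ne_zero.2 (one_div_ne_zero (pow_ne_zero 3 hr))
  have hΔ : 4 * Pool.Agent.Helper18.BC.kA p r (-f ^ 2 / const k K r)
        (1 + const k K p * f ^ 2 / const k K r ^ 2) ^ 3 +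
      27 * Pool.Agent.Helper18.BC.kB p r (-f ^ 2 / const k K r)
        (1 + const k K p * f ^ 2 / const k K r ^ 2) ^ 2 ≠ 0 := by
    rw [Pool.Agent.Helper18.BC.kdisc h3, Pool.Agent.Helper18.BC.kN_two p r hr f]
    exact mul_ne_zero ((_root_.map_ne_zero _).2 hd) (pow_ne_zero 2
      (mul_ne_zero ((_root_.map_ne_zero _).2 hc3) (mul_ne_zero hN1 hN2)))
  have hpts := Pool.Agent.Helper85.BC.R2 h6 hirr hf
  have hord : ∀ M : ℕ, S.VanishesTo k
      (coeffA (const k K p) (const k K r) (-f ^ 2 / const k K r)
        (1 + const k K p * f ^ 2 / const k K r ^ 2))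
      (coeffB (const k K p) (const k K r) (-f ^ 2 / const k K r)
        (1 + const k K p * f ^ 2 / const k K r ^ 2)) M → M ≤ 2 := by
    intro M hM
    exact Pool.Agent.Helper18.BC.bound2 hK hz h6 hirr hN1 hN2 v₁ v₂ hodd1 hodd2 hz1 hz2 hM
  refine ⟨hΔ, fun c => Pool.Agent.Helper18.BC.j_ne h6 hr hG ht hΔ c, hpts, hord,
    fun s hs hle => ?_⟩
  exact Pool.Agent.TH958.T5.equalities hpts hord s hs hle

/-- (0) The 2-torsion and the discriminant of the curves.

Let `k` be a finite field of characteristic at least five.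

(1) Let `K` be the function field of a curve over `k` with constant field `k`, such that the numerator
of the zeta function modulo two is not divisible by `X ^ 2 + X + 1`. Then the bound for the order of
vanishing of all curves with the constant 2-division field given by an irreducible polynomial
`X ^ 3 + p X + r` over `k` holds, and the two families have rank and order one and two.

(2) For every prime number `l` dividing `q ^ 2 + q + 1`, where `q` is the number of elements of `k`, the
towers over `k(t)` have rank and order one and two. -/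
theorem result :
    (∀ (L : Type) [Field L], (6 : L) ≠ 0 → TwoDivision L) ∧
    (∀ (k K : Type) [Field k] [Finite k] [Field K] [Algebra k K], (6 : k) ≠ 0 →
      IsCurveField k K → ZetaCondition k K →
      Bound k K ∧ FamilyOne k K ∧ FamilyTwo k K) ∧
    ∀ (k : Type) [Field k] [Finite k], (6 : k) ≠ 0 → ∀ l : ℕ, l.Prime →
      l ∣ Nat.card k ^ 2 + Nat.card k + 1 → Towers k l := by
  refine ⟨?_, ?_, ?_⟩
  · intro L _ h6 p r F G
    obtain ⟨h2, h3⟩ := two_three h6
    refine ⟨fun α x hα hx => ?_, Pool.Agent.Helper18.BC.disc_eq h3 p r F G⟩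
    subst hx
    exact Pool.Agent.Helper18.BC.root_id h3 hα F G
  · intro k K _ _ _ _ h6 hK hz
    obtain ⟨h2, h3⟩ := two_three h6
    haveI : FF.IsFF k K := ⟨hK.essFiniteType, hK.trdeg_eq_one⟩
    refine ⟨?_, familyOne h6 hK hz, familyTwo h6 hK hz⟩
    · intro p r hirr F G a b ha hb hΔ Z hZ M hM
      subst ha hb
      refine Pool.Agent.Helper18.BC.order_le hK hz h6 hirr hΔ Z (fun v hv hbad => ?_) hM
      obtain ⟨h1, h2', h3'⟩ := hZ v hv (fun h0 => (S.ord_disc_iff v hΔ).1 h0 hbad)
      exact ⟨h1, h2', (S.ord_A_iff v hΔ).1 h3'⟩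
  · intro k _ _ h6 l hl hdvd
    obtain ⟨h2, h3⟩ := two_three h6
    obtain ⟨p, r, hno, H⟩ := Pool.Agent.Helper85.BC.tower h6 hl hdvd
    have hK := Pool.Agent.TH958.T4.isCurveField_rat (k := k)
    have hz : ZetaCondition k (RatFunc k) := Pool.Agent.Helper85.BC.zetaCond_rat
    refine ⟨p, r, hno, fun c hc n => ?_⟩
    obtain ⟨⟨-, -, v₀, hodd, hzero, hpole⟩, hf, -, -, v₁, v₂, ho1, ho2, hz1, hz2⟩ := H c hc n
    refine ⟨familyOne h6 hK hz p r hno _ hf (fun v hv => hpole v ?_) v₀ hodd
      (fun v hv => hzero v ?_), familyTwo h6 hK hz p r hno _ hf v₁ v₂ ho1 ho2 hz1 hz2⟩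
    · have hf0 : asFun (C c * X ^ l ^ n) ≠ 0 := by
        intro h0
        apply hf
        show IsAlgebraic k (asFun (C c * X ^ l ^ n))
        rw [h0]
        exact isAlgebraic_zero
      have h2k : (2 : RatFunc k) = algebraMap k (RatFunc k) 2 := by rw [map_ofNat]
      show v.ord (asFun (C c * X ^ l ^ n) / 2) < 0
      rw [div_eq_mul_inv, h2k, ← map_inv₀, v.ord_mul hf0
        ((_root_.map_ne_zero _).2 (inv_ne_zero h2)), v.ord_const (inv_ne_zero h2), add_zero]
      exact hv
    · have e : Pool.Agent.Helper18.BC.kN p r (2 * (asFun (C c * X ^ l ^ n) / 2)) 1 =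
          asFun (C c * X ^ l ^ n) ^ 3 + const k (RatFunc k) p * asFun (C c * X ^ l ^ n) +
            const k (RatFunc k) r := by
        rw [half (k := k) h2]
        unfold Pool.Agent.Helper18.BC.kN
        ring
      show 0 < v.ord (Pool.Agent.Helper18.BC.kN p r (2 * (asFun (C c * X ^ l ^ n) / 2)) 1)
      rw [e]
      exact hv

end Pool.Agent.Results.MP_48b749_nt.ConstantTwoDivision
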