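import Pool.Agent.Helper15.TR.Uni

/-!
# Rank equals order of vanishing for elliptic curves with a point of order three and several triples of
# functions with the same sum and the same product

The elliptic curves `E : y ^ 2 + α x y + β y = x ^ 3`, or `X Y Z = β`, `X + Y + Z = α`, over function
fields of curves of every genus over finite fields.
-/

set_option autoImplicit false
set_option linter.all false
set_option maxHeartbeats 4000000

open Polynomial Pool.Agent.W343.BSD Pool.Agent.W309.RK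

namespace Pool.Agent.Results.MP_48b749_nt.EqualSumAndProduct

/-- The first coefficient of the short form of `y ^ 2 + α x y + β y = x ^ 3`. -/
def coeffA {K : Type} [Field K] (α β : K) : K := -27 * α * (α ^ 3 - 24 * β)

/-- The second coefficient of the short form of `y ^ 2 + α x y + β y = x ^ 3`. -/
def coeffB {K : Type} [Field K] (α β : K) : K := 54 * (α ^ 6 - 36 * α ^ 3 * β + 216 * β ^ 2)

/-- The short form `y ^ 2 = x ^ 3 + a x + b` of the curve `E : y ^ 2 + α x y + β y = x ^ 3`. It is also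
the cubic curve `X Y Z = β`, `X + Y + Z = α`. Its discriminant is `β ^ 3 (α ^ 3 - 27 β)` up to a
constant. -/
def curve {K : Type} [Field K] (α β : K) : WeierstrassCurve K := ⟨0, 0, 0, coeffA α β, coeffB α β⟩

open Classical in
/-- `E` is an elliptic curve whose `j`-invariant `6912 a ^ 3 / (4 a ^ 3 + 27 b ^ 2)` is not in `k`, with
a `K`-rational point of order three and `ρ` linearly independent points over `K`; its `L`-function
vanishes at `T = 1 / |k|` to order at most `ρ`: if it is `(1 - |k| T) ^ M G(T)` with `G` in `ℤ[T]`,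
then `M ≤ ρ`. If it is a polynomial with order of vanishing `r` and the rank is at most `r`, then
the rank and `r` are equal to `ρ`. -/
def RankAndOrder (k : Type) {K : Type} [Field k] [Finite k] [Field K] [Algebra k K] (ρ : ℕ)
    (α β : K) : Prop :=
  4 * coeffA α β ^ 3 + 27 * coeffB α β ^ 2 ≠ 0 ∧
  (∀ c : k, 6912 * coeffA α β ^ 3 / (4 * coeffA α β ^ 3 + 27 * coeffB α β ^ 2) ≠
    algebraMap k K c) ∧
  (∃ P : (curve α β).toAffine.Point, addOrderOf P = 3) ∧
  (∃ P : Fin ρ → (curve α β).toAffine.Point, LinearIndependent ℤ P) ∧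
  (∀ M : ℕ, S.VanishesTo k (coeffA α β) (coeffB α β) M → M ≤ ρ) ∧
  ∀ r : ℕ, Pool.Agent.W313.Gr.HasOrder k (coeffA α β) (coeffB α β) r →
    Module.rank ℤ (curve α β).toAffine.Point ≤ r →
      r = ρ ∧ Module.rank ℤ (curve α β).toAffine.Point = ρ

/-- The conditions on the places. The function `m` describes a line bundle, the sections of which have
order at least `m v` at `v`. With respect to it, `α` is a section, `β` is a section of the third power
with the set of zeros `B`, and the zeros of the section `N = α ^ 3 - 27 β` of the third power which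
are in `B` or not in `B'` have a residue field with a number of elements not congruent to `1` modulo
three. The degrees of the places in `B` and `B'` are prime to three. -/
structure Places (k : Type) {K : Type} [Field k] [Field K] [Algebra k K] (α β : K)
    (m : FF.Place k K → ℤ) (B B' : Finset (FF.Place k K)) : Prop where
  deg : ∀ v : FF.Place k K, v ∈ B ∨ v ∈ B' → ¬ 3 ∣ S.deg v
  sec : ∀ v : FF.Place k K, m v ≤ v.ord α
  zero : ∀ v ∈ B, 3 * m v < v.ord β
  unit : ∀ v : FF.Place k K, v ∉ B → v.ord β = 3 * m v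
  node : ∀ v : FF.Place k K, v ∈ B ∨ v ∉ B' → 3 * m v < v.ord (α ^ 3 - 27 * β) →
    ¬ (3 : ℤ) ∣ (Nat.card (S.Res v) : ℤ) - 1

/-- The `ρ` triples `(x i, y i, z i)` have the sum `α` and the product `β`, and the vectors of the
orders of `(x i) ^ 2 (y i)` at the places in `B` and the vector of the orders of `β` are linearly
independent modulo three. -/
structure Triples (k : Type) {K : Type} [Field k] [Field K] [Algebra k K] (α β : K)
    (B : Finset (FF.Place k K)) {ρ : ℕ} (x y z : Fin ρ → K) : Prop where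
  sum : ∀ i, x i + y i + z i = α
  prod : ∀ i, x i * y i * z i = β
  indep : ∀ (n : Fin ρ → ZMod 3) (m : ZMod 3),
    (∀ v ∈ B, ∑ i, n i * ((v.ord (x i ^ 2 * y i) : ℤ) : ZMod 3) +
      m * ((v.ord β : ℤ) : ZMod 3) = 0) → n = 0 ∧ m = 0

/-- The section `f` of the line bundle given by `m` has exactly one zero, at the place `v₀`; the order
of the zero and the degree of `v₀` are prime to three. -/
structure OneZero (k : Type) {K : Type} [Field k] [Field K] [Algebra k K] (m : FF.Place k K → ℤ)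
    (v₀ : FF.Place k K) (f : K) : Prop where
  ne : f ≠ 0
  pos : m v₀ < v₀.ord f
  ord : ¬ (3 : ℤ) ∣ v₀.ord f - m v₀
  deg : ¬ 3 ∣ S.deg v₀
  other : ∀ v : FF.Place k K, v ≠ v₀ → v.ord f = m v

/-- The condition on the zeros of the section `N` of the line bundle given by `n`. If the number `q` of
elements of `k` is not congruent to `1` modulo three, they have odd degree. If `q` is congruent to `1`
modulo three, then `N` is not a cube and has at most two zeros; their degrees are prime to three and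
they are different from the places `v j`. -/
def Zeros (k : Type) {K : Type} [Field k] [Field K] [Algebra k K] (n : FF.Place k K → ℤ) (N : K)
    {r : ℕ} (v : Fin r → FF.Place k K) : Prop :=
  (¬ 3 ∣ Nat.card k - 1 → ∀ w : FF.Place k K, n w < w.ord N → Odd (S.deg w)) ∧
  (3 ∣ Nat.card k - 1 → (∀ g : K, N ≠ g ^ 3) ∧ ∃ w₁ w₂ : FF.Place k K,
    (¬ 3 ∣ S.deg w₁ ∧ ¬ 3 ∣ S.deg w₂) ∧ (∀ j, v j ≠ w₁ ∧ v j ≠ w₂) ∧
      ∀ w : FF.Place k K, n w < w.ord N → w = w₁ ∨ w = w₂)

/-- The constant `c` as a function. -/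
abbrev const (k K : Type) [Field k] [Field K] [Algebra k K] (c : k) : K := algebraMap k K c

/-- The criterion: if there are `ρ` triples of functions with the sum `α` and the product `β`,
independent modulo three, `β` has `ρ + 2` zeros, and the conditions on the zeros of
`N = α ^ 3 - 27 β` hold (`B'` is empty if `q` is not congruent to `1` modulo three; if it is, `B'` has
at most two elements and `N` is not a cube), then the rank of `E` and the order of vanishing of its
`L`-function are `ρ`. -/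
def Criterion (k K : Type) [Field k] [Finite k] [Field K] [Algebra k K] : Prop :=
  ∀ (ρ : ℕ) (α β : K), α ≠ 0 → β ≠ 0 → α ^ 3 - 27 * β ≠ 0 →
    ∀ (m : FF.Place k K → ℤ) (B B' : Finset (FF.Place k K)), Places k α β m B B' →
    ∀ x y z : Fin ρ → K, Triples k α β B x y z → B.card = ρ + 2 →
    (B'.card ≤ if 3 ∣ Nat.card k - 1 then 2 else 0) →
    (3 ∣ Nat.card k - 1 → ∀ g : K, α ^ 3 - 27 * β ≠ g ^ 3) → RankAndOrder k ρ α β

/-- The family of rank one: `α = x + y + z`, `β = x y z`, for all sections `x`, `y`, `z` of a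
line bundle with one zero each. -/
def FamilyOne (k K : Type) [Field k] [Finite k] [Field K] [Algebra k K] : Prop :=
  ∀ (m : FF.Place k K → ℤ) (v : Fin 3 → FF.Place k K), Function.Injective v →
    ∀ x y z α β : K, OneZero k m (v 0) x → OneZero k m (v 1) y → OneZero k m (v 2) z →
    x + y + z = α → x * y * z = β → α ≠ 0 → α ^ 3 - 27 * β ≠ 0 →
    Zeros k (fun w => 3 * m w) (α ^ 3 - 27 * β) v → RankAndOrder k 1 α β

/-- The family of rank two: `α = x₀ x₁ + y ^ 2 + z = l₁ x₀ y + l₂ x₁ y + l₃ z`, `β = x₀ x₁ y ^ 2 z`,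
for all sections `x₀`, `x₁`, `y` of a line bundle and `z` of its square with one zero each, and
constants with `l₁ l₂ l₃ = 1`. -/
def FamilyTwo (k K : Type) [Field k] [Finite k] [Field K] [Algebra k K] : Prop :=
  ∀ (m : FF.Place k K → ℤ) (v : Fin 4 → FF.Place k K), Function.Injective v →
    ∀ x₀ x₁ y z α β : K, OneZero k m (v 0) x₀ → OneZero k m (v 1) x₁ → OneZero k m (v 2) y →
    OneZero k (fun w => 2 * m w) (v 3) z → ∀ l₁ l₂ l₃ : k, l₁ * l₂ * l₃ = 1 →
    x₀ * x₁ + y ^ 2 + z = α →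
    const k K l₁ * (x₀ * y) + const k K l₂ * (x₁ * y) + const k K l₃ * z = α →
    x₀ * x₁ * y ^ 2 * z = β → α ≠ 0 → α ^ 3 - 27 * β ≠ 0 →
    Zeros k (fun w => 6 * m w) (α ^ 3 - 27 * β) v → RankAndOrder k 2 α β

/-- The family of rank three: `α = x₀ x₁ + x₂ x₃ + z = l₁ x₀ x₂ + l₂ x₁ x₃ + l₃ z
= m₁ x₀ x₃ + m₂ x₁ x₂ + m₃ z`, `β = x₀ x₁ x₂ x₃ z`, for all sections `x₀`, `x₁`, `x₂`, `x₃` of a
line bundle and `z` of its square with one zero each, and constants with `l₁ l₂ l₃ = m₁ m₂ m₃ = 1`. -/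
def FamilyThree (k K : Type) [Field k] [Finite k] [Field K] [Algebra k K] : Prop :=
  ∀ (m : FF.Place k K → ℤ) (v : Fin 5 → FF.Place k K), Function.Injective v →
    ∀ x₀ x₁ x₂ x₃ z α β : K, OneZero k m (v 0) x₀ → OneZero k m (v 1) x₁ →
    OneZero k m (v 2) x₂ → OneZero k m (v 3) x₃ → OneZero k (fun w => 2 * m w) (v 4) z →
    ∀ l₁ l₂ l₃ m₁ m₂ m₃ : k, l₁ * l₂ * l₃ = 1 → m₁ * m₂ * m₃ = 1 →
    x₀ * x₁ + x₂ * x₃ + z = α →
    const k K l₁ * (x₀ * x₂) + const k K l₂ * (x₁ * x₃) + const k K l₃ * z = α →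
    const k K m₁ * (x₀ * x₃) + const k K m₂ * (x₁ * x₂) + const k K m₃ * z = α →
    x₀ * x₁ * x₂ * x₃ * z = β → α ≠ 0 → α ^ 3 - 27 * β ≠ 0 →
    Zeros k (fun w => 6 * m w) (α ^ 3 - 27 * β) v → RankAndOrder k 3 α β

/-- There is `c` in `k` such that for all `n` the curve over `k(t)` with `α = P(T)` and `β = Q(T)`,
`T = t ^ (l ^ n) - c`, has rank and order `ρ`. -/
def Tower (k : Type) [Field k] [Finite k] (l ρ : ℕ) (P Q : k[X]) : Prop :=
  ∃ c : k, ∀ n : ℕ, RankAndOrder k ρ
    (algebraMap k[X] (RatFunc k) (P.comp (X ^ l ^ n - C c)))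
    (algebraMap k[X] (RatFunc k) (Q.comp (X ^ l ^ n - C c)))

/-- The condition on the finite field `k` and the prime number `l`: `l` divides `q - 1` and
`(l - 1) ^ 2 < q`. -/
def Suitable (k : Type) [Field k] (l : ℕ) : Prop :=
  l.Prime ∧ l ∣ Nat.card k - 1 ∧ (l - 1) ^ 2 < Nat.card k

/-- The tower with `α = -8 T - 5` and `β = -36 T (T + 1)` has rank and order one. -/
def TowerOne (k : Type) [Field k] [Finite k] (l : ℕ) : Prop :=
  Tower k l 1 (-8 * X - 5) (-36 * (X * (X + 1)))

/-- The tower with `α = 9 T ^ 2 + 21 T + 26` and `β = 7 (T - 1) (T - 7) T ^ 2` has rank and order two. -/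
def TowerTwo (k : Type) [Field k] [Finite k] (l : ℕ) : Prop :=
  Tower k l 2 (26 + 21 * X + 9 * X ^ 2) (7 * ((X - 1) * (X - 7) * X ^ 2))

/-- The tower with `α = 27 T ^ 2 + 18 T + 13` and `β = 14 T (T - 1) (T - 24) (T - 5)` has rank and
order three. -/
def TowerThree (k : Type) [Field k] [Finite k] (l : ℕ) : Prop :=
  Tower k l 3 (13 + 18 * X + 27 * X ^ 2) (14 * (X * (X - 1) * (X - 24) * (X - 5)))

/-- The tower with `α = 21 T ^ 2 + 26 T + 4` and `β = T (T - 1) (T - 12) (T - 26) (T - 28) (T - 23)` has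
rank and order four. -/
def TowerFour (k : Type) [Field k] [Finite k] (l : ℕ) : Prop :=
  Tower k l 4 (4 + 26 * X + 21 * X ^ 2)
    (X * (X - 1) * (X - 12) * (X - 26) * (X - 28) * (X - 23))

/-- (1) Let `k` be a finite field of characteristic at least five and `K` the function field of a curve
over `k` with constant field `k` and class number prime to three. Then the criterion and the three
universal families hold for `K`.

(2) Let `k` be a finite field of characteristic at least eleven and `l` at least five a suitable prime.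
Then the first tower has rank and order one.

(3) Let `k` be a finite field of characteristic `29` with `q` not congruent to `1` modulo three, and
`l` at least `13` a suitable prime (for instance, `q = 29 ^ (6 j + 3)` and `l = 67`). Then the other
three towers have rank and order two, three and four. -/
theorem result :
    (∀ (k K : Type) [Field k] [Finite k] [Field K] [Algebra k K], (6 : k) ≠ 0 →
      IsCurveField k K → ¬ 3 ∣ S.classNumber k K →
      Criterion k K ∧ FamilyOne k K ∧ FamilyTwo k K ∧ FamilyThree k K) ∧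
    (∀ (k : Type) [Field k] [Finite k], (210 : k) ≠ 0 → ∀ l : ℕ, 5 ≤ l → Suitable k l →
      TowerOne k l) ∧
    ∀ (k : Type) [Field k] [Finite k] [CharP k 29], ¬ 3 ∣ Nat.card k - 1 → ∀ l : ℕ, 13 ≤ l →
      Suitable k l → TowerTwo k l ∧ TowerThree k l ∧ TowerFour k l := by
  refine ⟨?_, ?_, ?_⟩
  · intro k K _ _ _ _ h6 hK hcl
    refine ⟨?_, ?_, ?_, ?_⟩
    · intro ρ α β hα hβ hN m B B' hB x y z hT hc hc' hcube
      exact Pool.Agent.Helper15.TR.master h6 hK hcl hα hβ hN
        ⟨hB.deg, hB.sec, hB.zero, hB.unit, hB.node⟩ ⟨hT.sum, hT.prod, hT.indep⟩ hc hc' hcube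
    · intro m v hv x y z α β hx hy hz hα hβ h1 h2 hZ
      subst hα hβ
      exact Pool.Agent.Helper15.TR.uni1 h6 hK hcl hv ⟨hx.ne, hx.pos, hx.ord, hx.deg, hx.other⟩
        ⟨hy.ne, hy.pos, hy.ord, hy.deg, hy.other⟩ ⟨hz.ne, hz.pos, hz.ord, hz.deg, hz.other⟩ h1 h2 hZ
    · intro m v hv x₀ x₁ y z α β g0 g1 g2 g3 l₁ l₂ l₃ hl e1 e2 e3 h1 h2 hZ
      exact Pool.Agent.Helper15.TR.uni2 h6 hK hcl hv ⟨g0.ne, g0.pos, g0.ord, g0.deg, g0.other⟩
        ⟨g1.ne, g1.pos, g1.ord, g1.deg, g1.other⟩ ⟨g2.ne, g2.pos, g2.ord, g2.deg, g2.other⟩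
        ⟨g3.ne, g3.pos, g3.ord, g3.deg, g3.other⟩ hl e1 e2 e3.symm h1 h2 hZ
    · intro m v hv x₀ x₁ x₂ x₃ z α β g0 g1 g2 g3 g4 l₁ l₂ l₃ m₁ m₂ m₃ hl hm e1 e2 e3 e4 h1 h2 hZ
      exact Pool.Agent.Helper15.TR.uni3 h6 hK hcl hv ⟨g0.ne, g0.pos, g0.ord, g0.deg, g0.other⟩
        ⟨g1.ne, g1.pos, g1.ord, g1.deg, g1.other⟩ ⟨g2.ne, g2.pos, g2.ord, g2.deg, g2.other⟩
        ⟨g3.ne, g3.pos, g3.ord, g3.deg, g3.other⟩ ⟨g4.ne, g4.pos, g4.ord, g4.deg, g4.other⟩
        hl hm e1 e2 e3 e4.symm h1 h2 hZ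
  · intro k _ _ h210 l h5 ⟨hl, hdvd, hlq⟩
    obtain ⟨c, hc⟩ := Pool.Agent.Helper15.TR.tower1 h210 hl h5 hdvd hlq
    refine ⟨c, fun n => ?_⟩
    have h := hc n
    have e1 : ((-8 * X - 5 : k[X]).comp (X ^ l ^ n - C c)) = -8 * (X ^ l ^ n - C c) - 5 := by
      simp
    have e2 : ((-36 * (X * (X + 1)) : k[X]).comp (X ^ l ^ n - C c)) =
        -36 * ((X ^ l ^ n - C c) * ((X ^ l ^ n - C c) + 1)) := by
      simp
    rw [e1, e2]
    exact h
  · intro k _ _ _ hq l h13 ⟨hl, hdvd, hlq⟩
    exact ⟨Pool.Agent.Helper15.TR.ex2 hq hl h13 hdvd hlq, Pool.Agent.Helper15.TR.ex3 hq hl h13 hdvd hlq,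
      Pool.Agent.Helper15.TR.ex4 hq hl h13 hdvd hlq⟩

end Pool.Agent.Results.MP_48b749_nt.EqualSumAndProduct
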